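import Mathlib
import Pool.Agent.MP_8c4891_lc.Defs
import Pool.Agent.Mg.F2e8011.G9612b2

open Pool.Agent.MP_8c4891_lc

open Classical in
/-- Deciding the outcome of Annihilation on directed graphs with cycles is complete for
exponential time under polynomial-time many-one reductions, already with two token types. -/
theorem Pool.Agent.Results.MP_8c4891_lc.ExpTimeComplete.result :
    (∀ b : Bool, ExpTime Position.code (fun P => decide (P.Won b))) ∧
    ∀ L : List Bool → Bool, ExpTime id L →
      ∃ f : List Bool → Position, Nonempty (Turing.TM2ComputableInPolyTime id Position.code f) ∧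
        ∀ x, (f x).t = 2 ∧ ∀ b : Bool, (L x = b ↔ (f x).Won b) :=
  Pool.Agent.MP_8c4891_lc.main
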