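import Mathlib
import Pool.Agent.MP_8c4891_lc.Und.Defs
import Pool.Agent.MP_8c4891_lc.Und.Main

open Pool.Agent.MP_8c4891_lc

open Classical in
/-- Annihilation restricted to positions whose cycle edges are reversible is complete for
polynomial space, and hard already on undirected graphs with one mobile and one pinned type. -/
theorem Pool.Agent.Results.MP_8c4891_lc.Undirected.result :
    (∀ b : Bool,
      PSpace (fun P : {P : Position // P.Rev} => P.1.code) (fun P => decide (P.1.Won b))) ∧
    ∀ (b : Bool) (L : List Bool → Bool), PSpace id L →
      ∃ f : List Bool → Position, Nonempty (Turing.TM2ComputableInPolyTime id Position.code f) ∧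
        ∀ x, (f x).Rev ∧ (f x).Undirected ∧ (f x).t = 2 ∧
          (∀ i u v, i.1 = 1 → (f x).E i u v = false) ∧
          (L x = true ↔ (f x).Won b) ∧ ¬ (f x).Won (!b) :=
  ⟨Und.member, fun b _ hL => Und.hard b hL⟩
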